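import Pool.Agent.W602.RG.All
import Pool.Agent.W602.RG.Stm3

/-! Infinitely many pointed maps of bounded degree to a variety given by sums of few high powers of
linear forms give a line (part RGW). -/

set_option autoImplicit false

open FF MvPolynomial Pool.Agent.W603.LV Pool.Agent.W603.PV Pool.Agent.W603.CX
open Pool.Agent.W602.RG
open Pool.Agent.W602.GT (lin)

namespace Pool.Agent.W701.RG.RGW

theorem lin_eq_aeval {k M : Type} [Field k] [Field M] [Algebra k M] {n : ℕ}
    (l : Fin (n + 1) → k) (f : Fin (n + 1) → M) :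
    aeval f (∑ j, MvPolynomial.C (l j) * MvPolynomial.X j : MvPolynomial (Fin (n + 1)) k) =
      lin l f := by
  unfold lin
  rw [map_sum]
  refine Finset.sum_congr rfl fun j _ => ?_
  rw [map_mul, aeval_C, aeval_X]

theorem lin_coe {k L : Type} [Field k] [Field L] [Algebra k L] {n : ℕ}
    (g : ℕ → Fin (n + 1) → L) (fE : Fin (n + 1) → EE k L)
    (hg : ∀ j, (fE j : Om L) = Om.mk fun m => g m j) (l : Fin (n + 1) → k)
    (h0 : ∀ m, lin l (g m) = 0) : lin l fE = 0 := by
  rw [← lin_eq_aeval]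
  apply Subtype.ext
  rw [aeval_coe g fE hg]
  change _ = Om.mk fun _ => (0 : L)
  congr 1
  funext m
  rw [lin_eq_aeval]
  exact h0 m

theorem pow_coe {k L : Type} [Field k] [Field L] [Algebra k L] {n s : ℕ}
    (g : ℕ → Fin (n + 1) → L) (fE : Fin (n + 1) → EE k L)
    (hg : ∀ j, (fE j : Om L) = Om.mk fun m => g m j) (l : Fin s → Fin (n + 1) → k) (d : ℕ)
    (h0 : ∀ m, ∑ t, lin (l t) (g m) ^ d = 0) : ∑ t, lin (l t) fE ^ d = 0 := by
  have h1 : ∀ {M : Type} [Field M] [Algebra k M] (f : Fin (n + 1) → M),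
      aeval f (∑ t, (∑ j, MvPolynomial.C (l t j) * MvPolynomial.X j) ^ d :
        MvPolynomial (Fin (n + 1)) k) = ∑ t, lin (l t) f ^ d := by
    intro M _ _ f
    rw [map_sum]
    refine Finset.sum_congr rfl fun t _ => ?_
    rw [map_pow, lin_eq_aeval]
  rw [← h1]
  apply Subtype.ext
  rw [aeval_coe g fE hg]
  change _ = Om.mk fun _ => (0 : L)
  congr 1
  funext m
  rw [h1]
  exact h0 m

theorem main (h : S_ABW) : S_RGW := by
  classical
  intro k L _ _ _ _ _ _ n ι s d l hd hsd c x j0 hj0 B M hinf hM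
  have hGAC := Pool.Agent.W917.RG.GAC.main
  have hGTR := Pool.Agent.W32.RG.GTR.main
  have hGBC := Pool.Agent.W736.RG.main
  have hGPL := Pool.Agent.W374.RG.GPL.main
  have hGSP := Pool.Agent.W61.RG.GSP.main
  have hRIE := Pool.Agent.W369.RG.RIE.main
  have hSEQ := Pool.Agent.W764.RG.Seq.main
  have hhgt : ∀ f ∈ M, ∀ j, hgt k (f j) ≤ B := by
    intro f hf j
    obtain ⟨h1, h2, h3, h4, h5⟩ := hM f hf
    by_cases h0 : f j = 0
    · have h6 : pht k f ≤ B := h5
      have h7 : hgt k (f j) = 0 := by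
        rw [h0]
        have := hgt_algebraic (k := k) (K := L) (f := 0) isAlgebraic_zero
        exact this
      have h8 : 0 ≤ pht k f := by
        have h9 := hgt_le_pht (k := k) f (j := j0) (l := j0) (by rw [h1]; exact one_ne_zero)
          (by rw [h1]; exact one_ne_zero)
        exact (hgt_nonneg (k := k) _).trans h9
      omega
    · have h6 := hgt_le_pht (k := k) f (j := j) (l := j0) h0 (by rw [h1]; exact one_ne_zero)
      rw [h1, div_one] at h6
      exact h6.trans h5
  -- a coordinate with infinitely many values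
  obtain ⟨i1, hi1⟩ : ∃ i1, ((fun f : Fin (n + 1) → L => f i1) '' M).Infinite := by
    by_contra hcon
    push Not at hcon
    apply hinf
    apply (Set.Finite.pi' (t := fun j : Fin (n + 1) => (fun f : Fin (n + 1) → L => f j) '' M)
      (fun j => hcon j)).subset
    intro f hf j
    exact ⟨f, hf, rfl⟩
  obtain ⟨p, u, θ, hu, hθ, hval⟩ := hSEQ k L B _ hi1 (by
    rintro _ ⟨f, hf, rfl⟩
    exact hhgt f hf i1)
  choose g hgM hgu using hu
  have hg1 : ∀ m, g m j0 = 1 := fun m => (hM _ (hgM m)).1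
  -- homogeneous coordinates in a finite dimensional space
  obtain ⟨V, hV, hVf⟩ := hRIE k L n B
  have hφ : ∀ m, ∃ φ : L, φ ≠ 0 ∧ ∀ j, φ * g m j ∈ V := fun m =>
    hVf (g m) ⟨j0, by rw [hg1]; exact one_ne_zero⟩ (hM _ (hgM m)).2.2.2.2
  choose φ hφ0 hφV using hφ
  have hφE : Om.mk φ ∈ EE k L := by
    apply hGSP k L V hV
    intro m
    have := hφV m j0
    rwa [hg1, mul_one] at this
  have hφne : Om.mk φ ≠ 0 := Om.mk_ne_zero hφ0
  have hgE : ∀ j, Om.mk (fun m => g m j) ∈ EE k L := by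
    intro j
    have h1 : Om.mk (fun m => φ m * g m j) ∈ EE k L := hGSP k L V hV _ fun m => hφV m j
    have h2 : Om.mk (fun m => g m j) = Om.mk (fun m => φ m * g m j) / Om.mk φ := by
      rw [← Om.mk_mul, mul_div_cancel_left₀ _ hφne]
    rw [h2]
    exact div_mem h1 hφE
  let fE : Fin (n + 1) → EE k L := fun j => ⟨Om.mk fun m => g m j, hgE j⟩
  have hfE : ∀ j, (fE j : Om L) = Om.mk fun m => g m j := fun j => rfl
  -- the fields
  have hBC : BC k L (Om k) (EE k L) := hGBC k L
  have hAC : IsAlgClosed (Om k) := hGAC k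
  have hCZ : CharZero (Om k) :=
    charZero_of_injective_algebraMap (algebraMap k (Om k)).injective
  -- the places
  obtain ⟨P, hP, hPv⟩ := hGPL k L c
  obtain ⟨P1, hP1, hP1v⟩ := hGPL k L p
  refine h k L (Om k) (EE k L) hBC n ι s d l hd hsd x fE ?_ j0 hj0 ?_ ?_ P hP ?_ P1 hP1 i1
    (Om.mk θ) (hGTR k θ hθ) ?_
  · intro i t ht
    exact lin_coe g fE hfE (l i t) fun m => (hM _ (hgM m)).2.2.1 i t ht
  · apply Subtype.ext
    rw [hfE]
    change _ = Om.mk fun _ => (1 : L)
    congr 1
    funext m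
    exact hg1 m
  · intro i
    exact pow_coe g fE hfE (l i) (d i) fun m => (hM _ (hgM m)).2.1 i
  · intro j
    rw [← sub_eq_zero]
    refine hPv _ (fun m => g m j - algebraMap k L (x j / x j0)) ?_ fun m => ?_
    · change Om.mk (fun m => g m j) - cst L (algebraMap k L (x j / x j0)) = _
      rw [cst_apply, Om.mk_sub]
    · change g m j - algebraMap k L (x j / x j0) = 0 ∨
        0 < c.ord (g m j - algebraMap k L (x j / x j0))
      rw [sub_eq_zero]
      exact (hM _ (hgM m)).2.2.2.1 j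
  · rw [← sub_eq_zero]
    refine hP1v _ (fun m => g m i1 - algebraMap k L (θ m)) ?_ fun m => ?_
    · change Om.mk (fun m => g m i1) - mapOm k L (Om.mk θ) = _
      rw [mapOm_mk, Om.mk_sub]
    · change g m i1 - algebraMap k L (θ m) = 0 ∨ 0 < p.ord (g m i1 - algebraMap k L (θ m))
      have h4 : g m i1 = u m := hgu m
      rw [h4, sub_eq_zero]
      exact hval m

end Pool.Agent.W701.RG.RGW
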